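import Pool.Agent.FGT.Stmts

/-!
Squad FGT, row TYF (helper41): type F, finitely many classes is impossible.
-/

namespace Pool.Agent.FGT.H41

open Filter Topology Pool.Agent.FGT

universe u

section Basic

variable {L : Type u} [Group L] {α : L →* Equiv.Perm ℤ}

theorem ap_mul (g h : L) (j : ℤ) : α (g * h) j = α g (α h j) := by
  rw [map_mul, Equiv.Perm.mul_apply]

theorem ap_inv (g : L) (j : ℤ) : α g⁻¹ (α g j) = j := by
  rw [← ap_mul, inv_mul_cancel, map_one, Equiv.Perm.one_apply]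

theorem ap_inv' (g : L) (j : ℤ) : α g (α g⁻¹ j) = j := by
  rw [← ap_mul, mul_inv_cancel, map_one, Equiv.Perm.one_apply]

theorem orb_smul {K : Subgroup L} {g : L} (hg : g ∈ K) (j : ℤ) :
    orb α K (α g j) = orb α K j := by
  ext i
  constructor
  · rintro ⟨h, hh, e⟩
    exact ⟨h * g, K.mul_mem hh hg, by rw [ap_mul]; exact e⟩
  · rintro ⟨h, hh, e⟩
    refine ⟨h * g⁻¹, K.mul_mem hh (K.inv_mem hg), ?_⟩
    rw [ap_mul, ap_inv]
    exact e

/-- the orbit under a subgroup of finite index is infinite -/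
theorem orb_inf {K N : Subgroup L} (hN : N.FiniteIndex) {j : ℤ} (h : (orb α K j).Infinite) :
    (orb α (K ⊓ N) j).Infinite := by
  intro hf
  apply h
  have hq : Finite (K ⧸ N.subgroupOf K) := by
    have : (N.subgroupOf K).FiniteIndex := inferInstance
    infer_instance
  have hsub : orb α K j ⊆ ⋃ q : K ⧸ N.subgroupOf K, (fun i => α (q.out : L) i) '' orb α (K ⊓ N) j := by
    rintro i ⟨g, hg, rfl⟩
    rw [Set.mem_iUnion]
    let q : K ⧸ N.subgroupOf K := QuotientGroup.mk ⟨g, hg⟩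
    refine ⟨q, α ((q.out : L)⁻¹ * g) j, ⟨(q.out : L)⁻¹ * g, ⟨?_, ?_⟩, rfl⟩, ?_⟩
    · exact K.mul_mem (K.inv_mem q.out.2) hg
    · have h1 : (QuotientGroup.mk q.out : K ⧸ N.subgroupOf K) = QuotientGroup.mk ⟨g, hg⟩ :=
        q.out_eq'
      have h2 := QuotientGroup.eq.mp h1
      rw [Subgroup.mem_subgroupOf] at h2
      exact h2
    · change α (q.out : L) (α ((q.out : L)⁻¹ * g) j) = α g j
      rw [← ap_mul, mul_inv_cancel_left]
  exact (Set.finite_iUnion fun q => hf.image _).subset hsub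

/-- subgroups of finite index of f.g. subgroups -/
theorem inf_fg {K N : Subgroup L} (hK : K.FG) (hN : N.FiniteIndex) : (K ⊓ N).FG := by
  have h1 : Group.FG K := (Group.fg_iff_subgroup_fg K).2 hK
  have h2 : (N.subgroupOf K).FiniteIndex := inferInstance
  have h3 : Group.FG (N.subgroupOf K) := Subgroup.fg_of_index_ne_zero (N.subgroupOf K)
  have h4 : (N.subgroupOf K).FG := (Group.fg_iff_subgroup_fg _).1 h3
  classical
  obtain ⟨S, hS⟩ := h4
  refine ⟨S.image K.subtype, ?_⟩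
  rw [Finset.coe_image, ← MonoidHom.map_closure, hS, Subgroup.subgroupOf_map_subtype, inf_comm]

end Basic

theorem tyf (hdns : DnsStmt.{u}) (hstb : StbStmt.{u}) (hkra : KraStmt.{u}) (hkex : KexStmt.{u})
    (heqv : EqvStmt.{u}) (hswp : SwpStmt.{u}) : TyfStmt.{u} := by
  classical
  intro L _ hG α hα I hI z hcov hns hfin
  obtain ⟨F₀, hF₀⟩ := hfin
  obtain ⟨k1, k2, k3, k4, k5, k6, -⟩ := hkra L α hα I hI
  set D := DD α I z with hD
  -- the orbit of `z`
  have hDD : ∀ g : L, DD α I (α g z) = D := fun g => k1 g z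
  -- transitivity for points of the orbit
  have heq : ∀ g₁ g₂ g₃ : L, kk α I (α g₁ z) (α g₂ z) = D → kk α I (α g₂ z) (α g₃ z) = D →
      kk α I (α g₁ z) (α g₃ z) = D := by
    intro g₁ g₂ g₃ h1 h2
    have := heqv L α hα I hI (α g₁ z) (α g₂ z) (α g₃ z) (by rw [hDD, hDD]) (by rw [hDD, hDD])
      (by rw [hDD]; exact h1) (by rw [hDD]; exact h2)
    rw [this, hDD]
  have hkk : ∀ g : L, kk α I (α g z) (α g z) = D := fun g => by rw [k4, hDD]
  have hinv : ∀ g a b : L, kk α I (α (g * a) z) (α (g * b) z) = kk α I (α a z) (α b z) := by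
    intro g a b
    rw [ap_mul, ap_mul, k2]
  -- the kernel of the action on the classes
  let N : Subgroup L :=
    { carrier := {g | ∀ a : L, kk α I (α (g * a) z) (α a z) = D}
      one_mem' := fun a => by rw [one_mul]; exact hkk a
      mul_mem' := fun {g h} hg hh a => by
        have h1 := hg (h * a)
        have h2 := hh a
        rw [mul_assoc]
        exact heq _ _ _ h1 h2
      inv_mem' := fun {g} hg a => by
        have h1 := hg (g⁻¹ * a)
        rw [mul_inv_cancel_left] at h1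
        rw [k3]
        exact h1 }
  have hNmem : ∀ g, g ∈ N ↔ ∀ a : L, kk α I (α (g * a) z) (α a z) = D := fun g => Iff.rfl
  have hNfin : N.FiniteIndex := by
    -- representatives
    have hr : ∀ a : L, ∃ b : L, α b z ∈ F₀ ∧ kk α I (α a z) (α b z) = D := by
      intro a
      obtain ⟨f, hf, ⟨b, rfl⟩, h2⟩ := hF₀ a
      exact ⟨b, hf, h2⟩
    choose r hr1 hr2 using hr
    -- representatives in `F₀`
    have hb : ∀ f : {f : F₀ // ∃ b : L, α b z = f}, ∃ b : L, α b z = f.1 := fun f => f.2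
    choose bf hbf using hb
    let Φ : L → {f : F₀ // ∃ b : L, α b z = f} → {f : F₀ // ∃ b : L, α b z = f} :=
      fun g f => ⟨⟨α (r (g * bf f)) z, hr1 _⟩, ⟨_, rfl⟩⟩
    have hΦ : ∀ g f, kk α I (α (g * bf f) z) (α (bf (Φ g f)) z) = D := by
      intro g f
      rw [hbf (Φ g f)]
      exact hr2 _
    have hkey : ∀ g h : L, Φ g = Φ h → g⁻¹ * h ∈ N := by
      intro g h hgh a
      have hf : ∃ b : L, α b z = ((⟨α (r a) z, hr1 a⟩ : F₀) : ℤ) := ⟨r a, rfl⟩
      set f : {f : F₀ // ∃ b : L, α b z = f} := ⟨⟨α (r a) z, hr1 a⟩, hf⟩ with hfdef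
      have h0 : kk α I (α a z) (α (bf f) z) = D := by
        rw [hbf f]
        exact hr2 a
      have h0' : kk α I (α (bf f) z) (α a z) = D := by rw [k3]; exact h0
      have h1 : kk α I (α (g * bf f) z) (α (bf (Φ g f)) z) = D := hΦ g f
      have h2 : kk α I (α (h * bf f) z) (α (bf (Φ g f)) z) = D := by
        rw [hgh]; exact hΦ h f
      have h1' : kk α I (α (bf (Φ g f)) z) (α (g * bf f) z) = D := by rw [k3]; exact h1
      have h3 := heq _ _ _ h2 h1'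
      have h4 : kk α I (α (h * a) z) (α (h * bf f) z) = D := by rw [hinv]; exact h0
      have h5 : kk α I (α (g * bf f) z) (α (g * a) z) = D := by rw [hinv]; exact h0'
      have h6 := heq _ _ _ (heq _ _ _ h4 h3) h5
      rw [← hinv g (g⁻¹ * h * a) a, mul_assoc, mul_inv_cancel_left]
      exact h6
    have : Finite (L ⧸ N) := by
      have hinj : Function.Injective (fun q : L ⧸ N => Φ q.out) := by
        intro q q' hqq
        have h1 := hkey _ _ hqq
        rw [← q.out_eq', ← q'.out_eq']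
        exact QuotientGroup.eq.mpr h1
      exact Finite.of_injective _ hinj
    exact Subgroup.finiteIndex_of_finite_quotient
  -- the subgroup `K₀`
  obtain ⟨K₀, -, hK₀fg, hK₀inf, hK₀z⟩ := hstb L hG.tors hG.nlfs α hα ⊤ hG.fg.out (by
    have := hG.inf
    rw [Subgroup.coe_top]
    exact Set.infinite_univ) {z}
  have hK₀ : ∀ k ∈ K₀, α k z = z := hK₀z z (Finset.mem_singleton_self z)
  obtain ⟨g₀, hg₀, hinf₀⟩ := hns K₀ hK₀fg hK₀inf N hNfin
  set y₀ := α g₀ z with hy₀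
  have hV₀inf : (orb α (K₀ ⊓ N) y₀).Infinite := orb_inf hNfin hinf₀
  obtain ⟨c₁, hc₁, hdns₁⟩ := hdns L α hα I hI (K₀ ⊓ N) (inf_fg hK₀fg hNfin)
  have he₀ : 0 < ms I (orb α (K₀ ⊓ N) y₀) := hc₁.trans_le (hdns₁ y₀ hV₀inf)
  set V₀ := orb α (K₀ ⊓ N) y₀ with hV₀
  set O₀ := orb α K₀ y₀ with hO₀
  have hVO : V₀ ⊆ O₀ := fun y ⟨k, hk, hky⟩ => ⟨k, hk.1, hky⟩
  -- the class of `z`
  let E : Set ℤ := {x | ∃ a : L, α a z = x ∧ kk α I z x = D}
  have hVE : V₀ ⊆ E := by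
    rintro y ⟨k, hk, rfl⟩
    refine ⟨k * g₀, by rw [ap_mul], ?_⟩
    have h1 := (hNmem _).1 (N.mul_mem hk.2 hg₀) 1
    rw [mul_one, map_one, Equiv.Perm.one_apply] at h1
    rw [k3, hy₀, ← ap_mul]
    exact h1
  have hEDD : ∀ x ∈ E, DD α I x = D := by
    rintro x ⟨a, rfl, -⟩
    exact hDD a
  have hEE : ∀ x ∈ E, ∀ x' ∈ E, kk α I x x' = D := by
    rintro x ⟨a, rfl, ha⟩ x' ⟨b, rfl, hb⟩
    have h1 : kk α I (α a z) (α 1 z) = D := by
      rw [map_one, Equiv.Perm.one_apply, k3]; exact ha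
    have h2 : kk α I (α 1 z) (α b z) = D := by
      rw [map_one, Equiv.Perm.one_apply]; exact hb
    exact heq _ _ _ h1 h2
  have hOI : O₀ ⊆ II α K₀ := by
    rintro y ⟨k, hk, rfl⟩
    change (orb α K₀ (α k y₀)).Infinite
    rw [orb_smul hk]
    exact hinf₀
  let P : ℤ → ℤ → Prop := fun x y => ∃ g : L, α g z = x ∧ α g y₀ = y
  have hPz : ∀ y ∈ O₀, P z y := fun y ⟨k, hk, hky⟩ => ⟨k, hK₀ k hk, hky⟩
  have hPL : ∀ x x' y, P x y → Lk α y x x' → P x' y := by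
    rintro x x' y ⟨g, hg1, hg2⟩ ⟨h, hh1, hh2⟩
    exact ⟨h * g, by rw [ap_mul, hg1, hh2], by rw [ap_mul, hg2, hh1]⟩
  -- (a)
  have hPa : ∀ x ∈ E, ms I {y | y ∈ O₀ ∧ ¬ P x y} = 0 := by
    intro x hx
    obtain ⟨h1, -⟩ := hkex L α hα I hI z x hx.choose_spec.2 (hEDD x hx)
    have h2 := h1 K₀ hK₀fg hK₀
    refine le_antisymm ?_ (hI.ms_nonneg _)
    rw [← h2]
    exact hI.ms_mono fun y hy => ⟨hOI hy.1, fun hL => hy.2 (hPL _ _ _ (hPz y hy.1) hL)⟩
  -- (b)
  set e₀ := ms I V₀ with he₀def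
  obtain ⟨F, hF1, hF2⟩ := hcov (e₀ / 2 / 8) (by positivity) (e₀ / 2) (by positivity)
  let V : Set ℤ := {x | x ∈ V₀ ∧ ∃ K ∈ F, x ∈ Fx α K}
  have hV : e₀ / 2 ≤ ms I V := by
    have h1 : V₀ ⊆ V ∪ {j | (∃ g : L, α g z = j) ∧ ∀ K ∈ F, j ∉ Fx α K} := by
      intro x hx
      by_cases h : ∃ K ∈ F, x ∈ Fx α K
      · exact Or.inl ⟨hx, h⟩
      · push Not at h
        obtain ⟨a, ha, -⟩ := hVE hx
        exact Or.inr ⟨⟨a, ha⟩, h⟩
    have h2 := (hI.ms_mono h1).trans (hI.ms_union_le _ _)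
    linarith
  have hx : ∀ K : Subgroup L, ∃ x : ℤ, (∃ x', x' ∈ E ∧ x' ∈ Fx α K) → x ∈ E ∧ x ∈ Fx α K := by
    intro K
    by_cases h : ∃ x', x' ∈ E ∧ x' ∈ Fx α K
    · obtain ⟨x, hx⟩ := h
      exact ⟨x, fun _ => hx⟩
    · exact ⟨0, fun h' => absurd h' h⟩
  choose xK hxK using hx
  let Bad : Subgroup L → Set ℤ := fun K => {y | y ∈ O₀ ∧ ¬ P (xK K) y} ∪ (O₀ \ II α K)
  let s : Finset (Subgroup L) := F.filter fun K => ∃ x', x' ∈ E ∧ x' ∈ Fx α K
  have hLk : ∀ K ∈ s, ∀ x, x ∈ E → x ∈ Fx α K → ∀ y ∈ II α K, Lk α y (xK K) x := by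
    intro K hK x hxE hxF y hy
    rw [Finset.mem_filter] at hK
    obtain ⟨hxE', hxF'⟩ := hxK K hK.2
    obtain ⟨h1, -⟩ := hkex L α hα I hI (xK K) x (by rw [hEDD _ hxE']; exact hEE _ hxE' _ hxE)
      (by rw [hEDD _ hxE', hEDD _ hxE])
    have h2 := h1 K (hF1 K hK.1).1 hxF'
    obtain ⟨c, hc, hdns'⟩ := hdns L α hα I hI K (hF1 K hK.1).1
    by_contra hno
    have h3 : orb α K y ⊆ {y | y ∈ II α K ∧ ¬ Lk α y (xK K) x} := by
      rintro i ⟨k, hk, rfl⟩
      refine ⟨?_, ?_⟩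
      · change (orb α K (α k y)).Infinite
        rw [orb_smul hk]
        exact hy
      · rintro ⟨h, hh1, hh2⟩
        apply hno
        refine ⟨k⁻¹ * h * k, ?_, ?_⟩
        · rw [ap_mul, ap_mul, hh1, ap_inv]
        · rw [ap_mul, ap_mul, hxF' k hk, hh2, hxF k⁻¹ (K.inv_mem hk)]
    have h4 := hdns' y hy
    have h5 := hI.ms_mono h3
    rw [h2] at h5
    linarith
  have hbad : ∀ K ∈ s, ms I (Bad K) ≤ e₀ / 2 / 8 := by
    intro K hK
    have hK' := hK
    rw [Finset.mem_filter] at hK'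
    obtain ⟨hxE', hxF'⟩ := hxK K hK'.2
    obtain ⟨-, h1⟩ := hkex L α hα I hI z (xK K) hxE'.choose_spec.2 (hEDD _ hxE')
    have h2 := h1 K₀ K (e₀ / 2 / 8) hK₀fg (hF1 K hK'.1).1 hK₀ hxF' (hF1 K hK'.1).2
    have h3 := hPa _ hxE'
    have h4 : ms I (O₀ \ II α K) ≤ ms I (II α K₀ \ II α K) :=
      hI.ms_mono fun y hy => ⟨hOI hy.1, hy.2⟩
    have h5 := hI.ms_union_le {y | y ∈ O₀ ∧ ¬ P (xK K) y} (O₀ \ II α K)
    change ms I ({y | y ∈ O₀ ∧ ¬ P (xK K) y} ∪ (O₀ \ II α K)) ≤ _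
    linarith
  have hgood : ∀ x ∈ V, ∃ K ∈ s, ∀ y ∈ V, y ∉ Bad K → P x y := by
    rintro x ⟨hxV, K, hKF, hxFx⟩
    have hK : K ∈ s := Finset.mem_filter.mpr ⟨hKF, x, hVE hxV, hxFx⟩
    refine ⟨K, hK, fun y hy hyb => ?_⟩
    have hyO : y ∈ O₀ := hVO hy.1
    have h1 : P (xK K) y := by
      by_contra hno
      exact hyb (Or.inl ⟨hyO, hno⟩)
    have h2 : y ∈ II α K := by
      by_contra hno
      exact hyb (Or.inr ⟨hyO, hno⟩)
    exact hPL _ _ _ h1 (hLk K hK x (hVE hxV) hxFx y h2)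
  obtain ⟨x, -, y, -, hxy, ⟨g₁, h11, h12⟩, ⟨g₂, h21, h22⟩⟩ :=
    hswp I hI V (e₀ / 2) (by positivity) hV P (Subgroup L) s Bad hbad hgood
  -- the swap
  set h := g₂ * g₁⁻¹ with hh
  have hx1 : α h x = y := by rw [hh, ap_mul, ← h11, ap_inv, h21]
  have hy1 : α h y = x := by rw [hh, ap_mul, ← h12, ap_inv, h22]
  have hpow : ∀ m : ℕ, α (h ^ (2 * m)) x = x ∧ α (h ^ (2 * m + 1)) x = y := by
    intro m
    induction m with
    | zero => simp [hx1]
    | succ m ih =>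
      have e1 : h ^ (2 * (m + 1)) = h * h ^ (2 * m + 1) := by
        rw [← pow_succ']
        ring_nf
      have h1 : α (h ^ (2 * (m + 1))) x = x := by rw [e1, ap_mul, ih.2, hy1]
      refine ⟨h1, ?_⟩
      rw [pow_succ', ap_mul, h1, hx1]
  have hn : 0 < orderOf h := (hG.tors h).orderOf_pos
  rcases Nat.even_or_odd' (orderOf h) with ⟨m, hm | hm⟩
  · have h1 : h ^ m * h ^ m = 1 := by
      rw [← pow_add, ← two_mul, ← hm, pow_orderOf_eq_one]
    have h2 := hG.ninv _ h1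
    have h3 := orderOf_dvd_of_pow_eq_one h2
    have h4 : 0 < m := by omega
    have h5 := Nat.le_of_dvd h4 h3
    omega
  · have h1 := (hpow m).2
    rw [← hm, pow_orderOf_eq_one, map_one, Equiv.Perm.one_apply] at h1
    exact hxy h1

end Pool.Agent.FGT.H41
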